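import Pool.Agent.H257R3.SI.Stubs

/-!
# A10: a graph without large matchings and large stars is small (helper497)
-/

namespace Pool.Agent.H497R3

open Pool.Agent.H257R3.SI

theorem a10 : St_A10 := by
  classical
  intro V _ ι P a b K L hK hL hM ha hb
  set S : Finset (Finset ι) := P.powerset.filter
    (fun M => ∀ p ∈ M, ∀ q ∈ M, p ≠ q → a p ≠ a q ∧ b p ≠ b q) with hS
  have hne : S.Nonempty := ⟨∅, by
    rw [hS, Finset.mem_filter]
    refine ⟨Finset.empty_mem_powerset P, ?_⟩
    intro p hp
    exact absurd hp (Finset.notMem_empty p)⟩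
  obtain ⟨M, hMS, hmax⟩ := Finset.exists_max_image S Finset.card hne
  rw [hS, Finset.mem_filter, Finset.mem_powerset] at hMS
  obtain ⟨hMP, hMm⟩ := hMS
  have hcov : ∀ p ∈ P, ∃ q ∈ M, a p = a q ∨ b p = b q := by
    intro p hp
    by_cases hpM : p ∈ M
    · exact ⟨p, hpM, Or.inl rfl⟩
    · by_contra hcon
      push Not at hcon
      have hins : insert p M ∈ S := by
        rw [hS, Finset.mem_filter, Finset.mem_powerset]
        refine ⟨Finset.insert_subset hp hMP, ?_⟩
        intro x hx y hy hxy
        rw [Finset.mem_insert] at hx hy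
        rcases hx with rfl | hx
        · rcases hy with rfl | hy
          · exact absurd rfl hxy
          · exact hcon y hy
        · rcases hy with rfl | hy
          · exact ⟨(hcon x hx).1.symm, (hcon x hx).2.symm⟩
          · exact hMm x hx y hy hxy
      have := hmax _ hins
      rw [Finset.card_insert_of_notMem hpM] at this
      omega
  have hsub : P ⊆ M.biUnion (fun q => (P.filter (fun p => a p = a q)) ∪ (P.filter (fun p => b p = b q))) := by
    intro p hp
    obtain ⟨q, hq, h⟩ := hcov p hp
    rw [Finset.mem_biUnion]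
    refine ⟨q, hq, ?_⟩
    rw [Finset.mem_union, Finset.mem_filter, Finset.mem_filter]
    rcases h with h | h
    · exact Or.inl ⟨hp, h⟩
    · exact Or.inr ⟨hp, h⟩
  have h1 : (P.card : ℝ) ≤ ∑ q ∈ M, (2 * L) := by
    calc (P.card : ℝ) ≤ ((M.biUnion (fun q => (P.filter (fun p => a p = a q)) ∪
            (P.filter (fun p => b p = b q)))).card : ℝ) := by exact_mod_cast Finset.card_le_card hsub
      _ ≤ ((∑ q ∈ M, ((P.filter (fun p => a p = a q)) ∪ (P.filter (fun p => b p = b q))).card : ℕ) : ℝ) := by
          exact_mod_cast Finset.card_biUnion_le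
      _ = ∑ q ∈ M, (((P.filter (fun p => a p = a q)) ∪ (P.filter (fun p => b p = b q))).card : ℝ) := by
          push_cast
          rfl
      _ ≤ ∑ q ∈ M, (2 * L) := by
          refine Finset.sum_le_sum fun q _ => ?_
          have e : (((P.filter (fun p => a p = a q)) ∪ (P.filter (fun p => b p = b q))).card : ℝ) ≤
              ((P.filter (fun p => a p = a q)).card : ℝ) + ((P.filter (fun p => b p = b q)).card : ℝ) := by
            exact_mod_cast Finset.card_union_le _ _
          have e1 := ha (a q)
          have e2 := hb (b q)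
          have := e.trans (add_le_add e1 e2)
          linarith
  rw [Finset.sum_const, nsmul_eq_mul] at h1
  have h2 := hM M hMP hMm
  have h3 : (M.card : ℝ) * (2 * L) ≤ K * (2 * L) := mul_le_mul_of_nonneg_right h2 (by positivity)
  linarith

end Pool.Agent.H497R3
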